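import Pool.Agent.H970.RG.Psi

/-! # The scores and the vector fields of the next level -/

set_option autoImplicit false
set_option linter.unusedSectionVars false

noncomputable section

namespace Pool.Agent.H970.RG

open MvPolynomial Pool.Agent.H5R2.ON Pool.Agent.H717R2.ON3 Pool.Agent.H983R2.ONJ
open Pool.Agent.Y13.QM

section good

variable {L : ℕ} [NeZero L] {ι : Type} [Fintype ι] {G : Gr (Tor L) ι} {β : ℝ}
  {Λ : Finset (Tor L)} {W : WFun G β Λ} {J : Tor L → Fin 3 → Alg (Tor L)}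
  {b : Tor L → Fin 3 → Derivation ℝ (Alg (Tor L)) (Alg (Tor L))} {ρ l B : ℝ}

theorem kap_single_supp {r : ℝ} (hr : 1 ≤ r) {y x z : Tor L}
    (h : kap (Pi.single y 1) (psi 4 r) x z ≠ 0) :
    (x = y ∨ z = y) ∧ tnorm (x - z) ≤ 6 * r := by
  unfold kap at h
  have h1 := left_ne_zero_of_mul h
  have h2 := right_ne_zero_of_mul h
  refine ⟨?_, ?_⟩
  · by_contra hc
    push Not at hc
    apply h1
    rw [Pi.single_eq_of_ne hc.1, Pi.single_eq_of_ne hc.2, sub_zero]
  · have := psi_supp hr h2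
    linarith

theorem kap_single_near {r : ℝ} (hr : 1 ≤ r) {y x z : Tor L}
    (h : kap (Pi.single y 1) (psi 4 r) x z ≠ 0) :
    tnorm (x - y) ≤ 6 * r ∧ tnorm (z - y) ≤ 6 * r := by
  obtain ⟨h1, h2⟩ := kap_single_supp hr h
  rcases h1 with h1 | h1
  · subst h1
    rw [sub_self, tnorm_zero, tnorm_sub_comm z x]
    exact ⟨by linarith, h2⟩
  · subst h1
    rw [sub_self, tnorm_zero]
    exact ⟨h2, by linarith⟩

theorem sup_nJ (h : Good W J b ρ l B) {r : ℝ} (hρ : 0 ≤ ρ) (hr : 1 ≤ r) (hρr : 2 * ρ ≤ r)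
    (t : ℝ) (y : Tor L) (g : Fin 3) :
    Sup {x | tnorm (x - y) ≤ 7 * r} (nJ J t (psi 4 r) y g) := by
  have hJ : ∀ x, tnorm (x - y) ≤ 6 * r → ∀ g, Sup {x | tnorm (x - y) ≤ 7 * r} (J x g) := by
    intro x hx g
    refine (h.sup x g).mono fun w hw => ?_
    simp only [Set.mem_ofPred_eq] at hw ⊢
    have := tri3 w x y
    linarith
  unfold nJ
  refine Sup.sub ((hJ y (by rw [sub_self, tnorm_zero]; linarith) g).smul _) (Sup.smul ?_ _)
  unfold QQ
  refine Sup.sum _ _ fun x _ => Sup.sum _ _ fun z _ => ?_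
  by_cases hk : kap (Pi.single y 1) (psi 4 r) x z = 0
  · rw [hk, zero_smul]
    exact Sup.zero
  · obtain ⟨h1, h2⟩ := kap_single_near hr hk
    exact (Sup.mul (hJ x h1 _) (hJ z h2 _)).smul _

theorem nb_apply (J : Tor L → Fin 3 → Alg (Tor L))
    (b : Tor L → Fin 3 → Derivation ℝ (Alg (Tor L)) (Alg (Tor L))) (t : ℝ)
    (ψ : Tor L → Tor L → ℝ) (y : Tor L) (c : Fin 3) (F : Alg (Tor L)) :
    nb J b t ψ y c F = b y c F -
      t • ∑ x, ∑ z, kap (Pi.single y 1) ψ x z • (J z (c + 2) * b x (c + 1) F) := by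
  unfold nb
  rw [Derivation.sub_apply, Derivation.smul_apply, der_sum]
  congr 2
  refine Finset.sum_congr rfl fun x _ => ?_
  rw [der_sum]
  rfl

theorem loc_nb (h : Good W J b ρ l B) {r : ℝ} (hρ : 0 ≤ ρ) (hr : 1 ≤ r) (hρr : 2 * ρ ≤ r)
    (t : ℝ) (y : Tor L) (g : Fin 3) (F : Alg (Tor L)) (A : Set (Tor L)) (hF : Loc A F)
    (hA : ∀ x ∈ A, 7 * r < tnorm (x - y)) : nb J b t (psi 4 r) y g F = 0 := by
  have hb : ∀ x, tnorm (x - y) ≤ 6 * r → ∀ g, b x g F = 0 := by
    intro x hx g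
    refine h.loc x g F A hF fun w hw => ?_
    have h1 := hA w hw
    have h2 := tri3 w x y
    linarith
  rw [nb_apply, hb y (by rw [sub_self, tnorm_zero]; linarith) g, zero_sub, neg_eq_zero]
  refine smul_eq_zero_of_right _ (Finset.sum_eq_zero fun x _ => Finset.sum_eq_zero fun z _ => ?_)
  by_cases hk : kap (Pi.single y 1) (psi 4 r) x z = 0
  · rw [hk, zero_smul]
  · rw [hb x (kap_single_near hr hk).1, mul_zero, smul_zero]

/-- the divergence part of the bilinear expression -/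
theorem kap_div (h : Good W J b ρ l B) {r : ℝ} (hρ : 0 ≤ ρ) (hr : 1 ≤ r) (hρr : 2 * ρ ≤ r)
    (f : Tor L → ℝ) (g : Fin 3) :
    ∑ x, ∑ z, kap f (psi 4 r) x z • b x (g + 1) (J z (g + 2)) = -JS J f g := by
  have h1 : ∀ x z, kap f (psi 4 r) x z • b x (g + 1) (J z (g + 2)) =
      (f z - f x) • b x (g + 1) (J z (g + 2)) := by
    intro x z
    by_cases hxz : tnorm (x - z) ≤ 2 * ρ
    · unfold kap
      rw [psi_one hr (by linarith), mul_one]
    · push Not at hxz
      have h2 : b x (g + 1) (J z (g + 2)) = 0 := by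
        refine h.loc x _ _ {w | tnorm (w - z) ≤ ρ} (h.sup z _).loc fun w hw => ?_
        simp only [Set.mem_ofPred_eq] at hw
        have h3 := tri3 x w z
        rw [tnorm_sub_comm x w] at h3
        linarith
      rw [h2, smul_zero, smul_zero]
  simp only [h1, sub_smul, Finset.sum_sub_distrib]
  have h2 : ∑ x, ∑ z, f z • b x (g + 1) (J z (g + 2)) = -JS J f g := by
    rw [Finset.sum_comm]
    unfold JS
    rw [← Finset.sum_neg_distrib]
    refine Finset.sum_congr rfl fun z _ => ?_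
    rw [← Finset.smul_sum, ← der_sum, h.sumb (g + 1), h.cov z (g + 1) (g + 2)]
    unfold rot
    rw [alg1_f11, if_pos rfl, alg1_f12, smul_neg]
  have h3 : ∑ x, ∑ z, f x • b x (g + 1) (J z (g + 2)) = 0 := by
    refine Finset.sum_eq_zero fun x _ => ?_
    rw [← Finset.smul_sum, ← map_sum, h.sumJ, map_zero, smul_zero]
  rw [h2, h3, sub_zero]

theorem ibp_nb (h : Good W J b ρ l B) {r : ℝ} (hρ : 0 ≤ ρ) (hr : 1 ≤ r) (hρr : 2 * ρ ≤ r)
    (t : ℝ) (y : Tor L) (hy : ∀ x, tnorm (x - y) ≤ 7 * r → x ∈ Λ) (g : Fin 3)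
    (F : Alg (Tor L)) :
    W.E (nb J b t (psi 4 r) y g F) = W.E (nJ J t (psi 4 r) y g * F) := by
  have hin : ∀ x, tnorm (x - y) ≤ 6 * r → ∀ w, tnorm (w - x) ≤ ρ → w ∈ Λ := by
    intro x hx w hw
    refine hy w ?_
    have := tri3 w x y
    linarith
  -- the bilinear expression
  have h1 : W.E (QQ J (kap (Pi.single y 1) (psi 4 r)) g * F) =
      W.E (∑ x, ∑ z, kap (Pi.single y 1) (psi 4 r) x z • (J z (g + 2) * b x (g + 1) F)) -
        W.E (J y g * F) := by
    have h2 : ∀ x z, W.E (kap (Pi.single y 1) (psi 4 r) x z • (J x (g + 1) * J z (g + 2)) * F) =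
        W.E (kap (Pi.single y 1) (psi 4 r) x z • (J z (g + 2) * b x (g + 1) F)) +
        W.E (kap (Pi.single y 1) (psi 4 r) x z • b x (g + 1) (J z (g + 2)) * F) := by
      intro x z
      by_cases hk : kap (Pi.single y 1) (psi 4 r) x z = 0
      · rw [hk]
        simp only [zero_smul, zero_mul, map_zero, add_zero]
      · have h3 := h.ibp x (hin x (kap_single_near hr hk).1) (g + 1) (J z (g + 2) * F)
        rw [Derivation.leibniz, map_add] at h3
        simp only [smul_mul_assoc, map_smul]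
        rw [← smul_add, mul_assoc, ← h3]
        congr 2
        rw [smul_eq_mul, mul_comm F]
    have h4 : QQ J (kap (Pi.single y 1) (psi 4 r)) g * F =
        ∑ x, ∑ z, kap (Pi.single y 1) (psi 4 r) x z • (J x (g + 1) * J z (g + 2)) * F := by
      unfold QQ
      rw [Finset.sum_mul]
      exact Finset.sum_congr rfl fun x _ => Finset.sum_mul _ _ _
    have h5 := kap_div h hρ hr hρr (Pi.single y 1) g
    have h6 : JS J (Pi.single y 1) g = J y g := by
      unfold JS
      rw [Finset.sum_eq_single y]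
      · rw [Pi.single_eq_same, one_smul]
      · intro z _ hz
        rw [Pi.single_eq_of_ne hz, zero_smul]
      · intro hh
        exact absurd (Finset.mem_univ y) hh
    rw [h6] at h5
    have h7 : ∑ x, ∑ z, kap (Pi.single y 1) (psi 4 r) x z • b x (g + 1) (J z (g + 2)) * F =
        -(J y g * F) := by
      rw [← neg_mul, ← h5, Finset.sum_mul]
      exact Finset.sum_congr rfl fun x _ => (Finset.sum_mul _ _ _).symm
    rw [h4, map_sum]
    simp only [map_sum] at h2 ⊢
    simp only [h2, Finset.sum_add_distrib]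
    rw [sub_eq_add_neg]
    congr 1
    simp only [← map_sum]
    rw [h7, map_neg]
  rw [nb_apply, map_sub, map_smul]
  unfold nJ
  rw [sub_mul, smul_mul_assoc, smul_mul_assoc, map_sub, map_smul, map_smul, h1]
  rw [h.ibp y (fun x hx => hy x (by linarith)) g F]
  simp only [smul_eq_mul]
  ring

end good

theorem alg : S_alg := by
  intro L _ ι _ G β Λ W J b ρ l B r t h hρ hρr hr
  refine ⟨fun g => sum_nJ h.sumJ t _ g, fun g => ?_, fun y => ?_, fun y g => ?_, ?_, ?_⟩
  · rw [sum_nb]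
    exact h.sumb g
  · exact covV_nJ h.cov t (psi_symm 4 r) y
  · exact sup_nJ h hρ hr hρr t y g
  · intro y g F A hF hA
    exact loc_nb h hρ hr hρr t y g F A hF hA
  · intro y hy g F
    exact ibp_nb h hρ hr hρr t y hy g F

end Pool.Agent.H970.RG
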