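import Pool.Agent.H970.RG.Defs

/-! # Algebra of the scores: locality, linearity, covariance -/

set_option autoImplicit false
set_option linter.unusedSectionVars false

noncomputable section

namespace Pool.Agent.H970.RG

open MvPolynomial Pool.Agent.H5R2.ON Pool.Agent.H717R2.ON3 Pool.Agent.H983R2.ONJ
open Pool.Agent.Y13.QM

section general

variable {V : Type}

theorem Sup.mono {A B : Set V} {F : Alg V} (h : Sup A F) (hAB : A ⊆ B) : Sup B F := by
  unfold Sup at h ⊢
  have h1 : {v : V × Fin 3 | v.1 ∈ A} ⊆ {v : V × Fin 3 | v.1 ∈ B} := fun v hv => hAB hv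
  exact MvPolynomial.supported_mono h1 h

theorem Sup.add {A : Set V} {F H : Alg V} (hF : Sup A F) (hH : Sup A H) : Sup A (F + H) :=
  Subalgebra.add_mem _ hF hH

theorem Sup.sub {A : Set V} {F H : Alg V} (hF : Sup A F) (hH : Sup A H) : Sup A (F - H) :=
  Subalgebra.sub_mem _ hF hH

theorem Sup.neg {A : Set V} {F : Alg V} (hF : Sup A F) : Sup A (-F) :=
  Subalgebra.neg_mem _ hF

theorem Sup.mul {A : Set V} {F H : Alg V} (hF : Sup A F) (hH : Sup A H) : Sup A (F * H) :=
  Subalgebra.mul_mem _ hF hH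

theorem Sup.smul {A : Set V} {F : Alg V} (hF : Sup A F) (c : ℝ) : Sup A (c • F) :=
  Subalgebra.smul_mem _ hF c

theorem Sup.zero {A : Set V} : Sup A (0 : Alg V) := Subalgebra.zero_mem _

theorem Sup.sum {α : Type*} {A : Set V} (I : Finset α) (F : α → Alg V)
    (hF : ∀ a ∈ I, Sup A (F a)) : Sup A (∑ a ∈ I, F a) :=
  Subalgebra.sum_mem _ hF

theorem Sup.loc [DecidableEq V] {A : Set V} {F : Alg V} (h : Sup A F) : Loc A F := by
  intro x hx g
  have h1 : D x g F = (0 : Derivation ℝ (Alg V) (Alg V)) F := by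
    refine MvPolynomial.derivation_eqOn_supported (s := {v : V × Fin 3 | v.1 ∈ A}) ?_ h
    intro v hv
    simp only [Function.comp]
    have hne : v.1 ≠ x := fun he => hx (he ▸ hv)
    obtain ⟨y, i⟩ := v
    rw [alg1_Xne hne]
    rfl
  rw [h1]
  rfl

variable [Fintype V] [DecidableEq V]

theorem der_sum {α : Type} (s : Finset α) (d : α → Derivation ℝ (Alg V) (Alg V)) (F : Alg V) :
    (∑ a ∈ s, d a) F = ∑ a ∈ s, d a F := by
  classical
  induction s using Finset.induction_on with
  | empty => simp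
  | insert a s ha ih =>
    rw [Finset.sum_insert ha, Finset.sum_insert ha, Derivation.add_apply, ih]

theorem BS_apply (b : V → Fin 3 → Derivation ℝ (Alg V) (Alg V)) (f : V → ℝ) (g : Fin 3)
    (F : Alg V) : BS b f g F = ∑ y, f y • b y g F := by
  unfold BS
  rw [der_sum]
  rfl

theorem kap_anti {f : V → ℝ} {ψ : V → V → ℝ} (hψ : ∀ x z, ψ x z = ψ z x) :
    Anti (kap f ψ) := by
  intro x z
  unfold kap
  rw [hψ x z]
  ring

theorem kap_one (ψ : V → V → ℝ) (x z : V) : kap (fun _ => 1) ψ x z = 0 := by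
  unfold kap
  ring

theorem kap_sum (f : V → ℝ) (ψ : V → V → ℝ) (x z : V) :
    ∑ y, f y * kap (Pi.single y 1) ψ x z = kap f ψ x z := by
  unfold kap
  have h : ∀ w : V, ∑ y, f y * (Pi.single y (1 : ℝ) : V → ℝ) w = f w := by
    intro w
    simp only [Pi.single_apply, mul_ite, mul_one, mul_zero]
    rw [Finset.sum_ite_eq]
    simp
  have : ∀ y, f y * (((Pi.single y (1 : ℝ) : V → ℝ) z - (Pi.single y (1 : ℝ) : V → ℝ) x) * ψ x z) =
      (f y * (Pi.single y (1 : ℝ) : V → ℝ) z - f y * (Pi.single y (1 : ℝ) : V → ℝ) x) * ψ x z := by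
    intro y
    ring
  simp only [this]
  rw [← Finset.sum_mul, Finset.sum_sub_distrib, h, h]

theorem QQ_sum (J : V → Fin 3 → Alg V) (f : V → ℝ) (ψ : V → V → ℝ) (c : Fin 3) :
    ∑ y, f y • QQ J (kap (Pi.single y 1) ψ) c = QQ J (kap f ψ) c := by
  unfold QQ
  simp only [Finset.smul_sum, smul_smul]
  rw [Finset.sum_comm]
  refine Finset.sum_congr rfl fun x _ => ?_
  rw [Finset.sum_comm]
  refine Finset.sum_congr rfl fun z _ => ?_
  rw [← Finset.sum_smul, kap_sum]

theorem JS_nJ (J : V → Fin 3 → Alg V) (t : ℝ) (ψ : V → V → ℝ) (f : V → ℝ) (c : Fin 3) :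
    JS (nJ J t ψ) f c = (1 - t) • JS J f c - t • QQ J (kap f ψ) c := by
  rw [← QQ_sum]
  unfold JS nJ
  simp only [smul_sub, Finset.sum_sub_distrib, Finset.smul_sum]
  congr 1
  · refine Finset.sum_congr rfl fun y _ => ?_
    rw [smul_comm]
  · refine Finset.sum_congr rfl fun y _ => ?_
    rw [smul_comm]

theorem JS_one {J : V → Fin 3 → Alg V} (hJ : ∀ g, ∑ y, J y g = 0) (g : Fin 3) :
    JS J (fun _ => 1) g = 0 := by
  unfold JS
  simp only [one_smul]
  exact hJ g

theorem QQ_zero (J : V → Fin 3 → Alg V) (c : Fin 3) {k : V → V → ℝ} (hk : ∀ x z, k x z = 0) :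
    QQ J k c = 0 := by
  unfold QQ
  refine Finset.sum_eq_zero fun x _ => Finset.sum_eq_zero fun z _ => ?_
  rw [hk, zero_smul]

theorem sum_nJ {J : V → Fin 3 → Alg V} (hJ : ∀ g, ∑ y, J y g = 0) (t : ℝ) (ψ : V → V → ℝ)
    (g : Fin 3) : ∑ y, nJ J t ψ y g = 0 := by
  have h := JS_nJ J t ψ (fun _ => 1) g
  rw [JS_one hJ, QQ_zero J g (kap_one ψ), smul_zero, smul_zero, sub_zero] at h
  unfold JS at h
  simpa only [one_smul] using h

theorem sum_nb (J : V → Fin 3 → Alg V) {b : V → Fin 3 → Derivation ℝ (Alg V) (Alg V)} (t : ℝ)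
    (ψ : V → V → ℝ) (g : Fin 3) : ∑ y, nb J b t ψ y g = ∑ y, b y g := by
  unfold nb
  rw [Finset.sum_sub_distrib, ← Finset.smul_sum]
  have h : ∑ y : V, ∑ x, ∑ z, kap (Pi.single y 1) ψ x z • (J z (g + 2) • b x (g + 1)) = 0 := by
    rw [Finset.sum_comm]
    refine Finset.sum_eq_zero fun x _ => ?_
    rw [Finset.sum_comm]
    refine Finset.sum_eq_zero fun z _ => ?_
    rw [← Finset.sum_smul]
    have h1 := kap_sum (fun _ : V => 1) ψ x z
    simp only [one_mul] at h1
    rw [h1, kap_one, zero_smul]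
  rw [h, smul_zero, sub_zero]

/-- bilinear expressions with antisymmetric kernel are vectors -/
theorem covV_QQ {J : V → Fin 3 → Alg V} (hJ : ∀ y, CovV (J y)) {k : V → V → ℝ} (hk : Anti k) :
    CovV (QQ J k) := by
  intro i g
  have h : R (fun _ => 1) i (QQ J k g) = ∑ x, ∑ z, k x z •
      (J x (g + 1) * rot i (g + 2) (J z) + rot i (g + 1) (J x) * J z (g + 2)) := by
    unfold QQ
    rw [map_sum]
    refine Finset.sum_congr rfl fun x _ => ?_
    rw [map_sum]
    refine Finset.sum_congr rfl fun z _ => ?_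
    rw [Derivation.map_smul, Derivation.leibniz, hJ x i (g + 1), hJ z i (g + 2)]
    congr 1
    simp only [smul_eq_mul]
    ring
  rw [h]
  rcases alg1_cases i g with rfl | rfl | rfl
  · -- g = i
    have e1 : ∀ z, rot g (g + 2) (J z) = J z (g + 1) := by
      intro z
      unfold rot
      rw [if_neg (alg1_n21 g), if_pos rfl]
    have e2 : ∀ z, rot g (g + 1) (J z) = -J z (g + 2) := by
      intro z
      unfold rot
      rw [if_pos rfl]
    have e3 : rot g g (QQ J k) = 0 := by
      unfold rot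
      rw [if_neg (alg1_n01 g), if_neg (alg1_n02 g)]
    simp only [e1, e2, e3]
    have h1 := a2_anti_zero hk (fun x => J x (g + 1))
    have h2 := a2_anti_zero hk (fun x => J x (g + 2))
    simp only [neg_mul, smul_add, Finset.sum_add_distrib, smul_neg, Finset.sum_neg_distrib]
    rw [h1, h2]
    simp
  · -- g = i + 1
    have e1 : ∀ z, rot i (i + 1 + 2) (J z) = 0 := by
      intro z
      unfold rot
      rw [alg1_f12, if_neg (alg1_n01 i), if_neg (alg1_n02 i)]
    have e2 : ∀ z, rot i (i + 1 + 1) (J z) = J z (i + 1) := by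
      intro z
      unfold rot
      rw [alg1_f11, if_neg (alg1_n21 i), if_pos rfl]
    have e3 : rot i (i + 1) (QQ J k) = -QQ J k (i + 2) := by
      unfold rot
      rw [if_pos rfl]
    rw [e3]
    simp only [e1, e2, mul_zero, zero_add]
    unfold QQ
    rw [alg1_f21, alg1_f22, alg1_f12]
    exact a2_anti_swap hk (fun x => J x (i + 1)) (fun x => J x i)
  · -- g = i + 2
    have e1 : ∀ z, rot i (i + 2 + 2) (J z) = -J z (i + 2) := by
      intro z
      unfold rot
      rw [alg1_f22, if_pos rfl]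
    have e2 : ∀ z, rot i (i + 2 + 1) (J z) = 0 := by
      intro z
      unfold rot
      rw [alg1_f21, if_neg (alg1_n01 i), if_neg (alg1_n02 i)]
    have e3 : rot i (i + 2) (QQ J k) = QQ J k (i + 1) := by
      unfold rot
      rw [if_neg (alg1_n21 i), if_pos rfl]
    rw [e3]
    simp only [e1, e2, zero_mul, add_zero, mul_neg, smul_neg,
      Finset.sum_neg_distrib]
    unfold QQ
    rw [alg1_f11, alg1_f12, alg1_f21]
    rw [a2_anti_swap hk (fun x => J x (i + 2)) (fun x => J x i)]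

theorem covV_sum {α : Type} {s : Finset α} {J : α → Fin 3 → Alg V} (h : ∀ a ∈ s, CovV (J a)) :
    CovV (fun g => ∑ a ∈ s, J a g) := by
  intro i g
  rw [map_sum, Finset.sum_congr rfl fun a ha => h a ha i g]
  unfold rot
  split_ifs
  · rw [Finset.sum_neg_distrib]
  · rfl
  · simp

theorem covV_smul {J : Fin 3 → Alg V} (h : CovV J) (c : ℝ) : CovV (fun g => c • J g) := by
  intro i g
  rw [Derivation.map_smul, h i g]
  unfold rot
  split_ifs
  · rw [smul_neg]
  · rfl
  · rw [smul_zero]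

theorem covV_sub {J K : Fin 3 → Alg V} (h : CovV J) (h' : CovV K) :
    CovV (fun g => J g - K g) := by
  intro i g
  rw [map_sub, h i g, h' i g]
  unfold rot
  split_ifs
  · ring
  · rfl
  · simp

theorem covV_JS {J : V → Fin 3 → Alg V} (hJ : ∀ y, CovV (J y)) (f : V → ℝ) :
    CovV (JS J f) := by
  unfold JS
  exact covV_sum fun y _ => covV_smul (hJ y) _

theorem covV_nJ {J : V → Fin 3 → Alg V} (hJ : ∀ y, CovV (J y)) (t : ℝ) {ψ : V → V → ℝ}
    (hψ : ∀ x z, ψ x z = ψ z x) (y : V) : CovV (nJ J t ψ y) := by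
  unfold nJ
  exact covV_sub (covV_smul (hJ y) _) (covV_smul (covV_QQ hJ (kap_anti hψ)) _)

theorem covV_crs {P Q : Fin 3 → Alg V} (hP : CovV P) (hQ : CovV Q) : CovV (crs P Q) := by
  intro i g
  have h : R (fun _ => 1) i (crs P Q g) =
      P (g + 1) * rot i (g + 2) Q + rot i (g + 1) P * Q (g + 2) -
      (P (g + 2) * rot i (g + 1) Q + rot i (g + 2) P * Q (g + 1)) := by
    unfold crs
    rw [map_sub, Derivation.leibniz, Derivation.leibniz, hP i (g + 1), hP i (g + 2),
      hQ i (g + 1), hQ i (g + 2)]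
    simp only [smul_eq_mul]
    ring
  rw [h]
  unfold rot crs
  rcases alg1_cases i g with rfl | rfl | rfl
  · simp only [if_pos, if_neg (alg1_n21 g), if_neg (alg1_n01 g), if_neg (alg1_n02 g)]
    ring
  · simp only [alg1_f12, alg1_f11, alg1_f21, alg1_f22, if_pos, if_neg (alg1_n21 i),
      if_neg (alg1_n01 i), if_neg (alg1_n02 i)]
    ring
  · simp only [alg1_f12, alg1_f11, alg1_f21, alg1_f22, if_pos, if_neg (alg1_n21 i),
      if_neg (alg1_n01 i), if_neg (alg1_n02 i)]
    ring

/-- the divergence of a vector vanishes -/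
theorem div_vec {P : Fin 3 → Alg V} (hP : CovV P) (g : Fin 3) : R (fun _ => 1) g (P g) = 0 := by
  rw [hP g g]
  unfold rot
  rw [if_neg (alg1_n01 g), if_neg (alg1_n02 g)]

end general

end Pool.Agent.H970.RG
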