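import Pool.Graph.R_seed8.Y13.QM.Spin
import Pool.Graph.R_seed8.H983R2.ONJ.Defs
import Pool.Graph.R_seed8.H983R2.ONJ.GeoB
import Pool.Graph.R_seed8.H717R2.ON3.Alg1
import Pool.Graph.R_seed8.H717R2.ON3.Alg2
import Pool.Graph.R_seed8.H717R2.ON3.Fun1
import Pool.Graph.R_seed8.H717R2.ON3.Geo1
import Pool.Graph.R_seed8.H717R2.ON3.Geo2
import Pool.Graph.R_seed8.H717R2.ON3.Geo3

/-!
# Renormalisation of the scores of the two-dimensional O(N) models: definitions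

A level of the renormalisation consists of vector fields `b y g` on the configuration space which
add up to the global rotations and of their scores `J y g`. In the next level the score is
corrected by the commutators of the scores at a larger scale.
-/

set_option autoImplicit false

noncomputable section

namespace Pool.Agent.H970.RG

open MvPolynomial Pool.Agent.H5R2.ON Pool.Agent.H717R2.ON3 Pool.Agent.H983R2.ONJ
open Pool.Agent.Y13.QM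

/-- polynomials in the spins at the sites of `A` -/
def Sup {V : Type} (A : Set V) (F : Alg V) : Prop :=
  F ∈ MvPolynomial.supported ℝ {v : V × Fin 3 | v.1 ∈ A}

/-- nonnegative on all configurations of vectors of length at most one -/
def NN {V : Type} (F : Alg V) : Prop :=
  ∀ σ : V × Fin 3 → ℝ, (∀ x, σ (x, 0) ^ 2 + σ (x, 1) ^ 2 + σ (x, 2) ^ 2 ≤ 1) → 0 ≤ eval σ F

section general

variable {V : Type} [Fintype V] [DecidableEq V]

/-- smeared score -/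
def JS (J : V → Fin 3 → Alg V) (f : V → ℝ) (g : Fin 3) : Alg V := ∑ y, f y • J y g

/-- smeared vector field -/
def BS (b : V → Fin 3 → Derivation ℝ (Alg V) (Alg V)) (f : V → ℝ) (g : Fin 3) :
    Derivation ℝ (Alg V) (Alg V) := ∑ y, f y • b y g

/-- bilinear combination of the scores with kernel `k`, component `c` -/
def QQ (J : V → Fin 3 → Alg V) (k : V → V → ℝ) (c : Fin 3) : Alg V :=
  ∑ x, ∑ z, k x z • (J x (c + 1) * J z (c + 2))

/-- the antisymmetric kernel of `f` and the symmetric cut-off `ψ` -/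
def kap (f : V → ℝ) (ψ : V → V → ℝ) (x z : V) : ℝ := (f z - f x) * ψ x z

/-- the scores of the next level -/
def nJ (J : V → Fin 3 → Alg V) (t : ℝ) (ψ : V → V → ℝ) (y : V) (c : Fin 3) : Alg V :=
  (1 - t) • J y c - t • QQ J (kap (Pi.single y 1) ψ) c

/-- the vector fields of the next level -/
def nb (J : V → Fin 3 → Alg V) (b : V → Fin 3 → Derivation ℝ (Alg V) (Alg V)) (t : ℝ)
    (ψ : V → V → ℝ) (y : V) (c : Fin 3) : Derivation ℝ (Alg V) (Alg V) :=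
  b y c - t • ∑ x, ∑ z, kap (Pi.single y 1) ψ x z • (J z (c + 2) • b x (c + 1))

/-- the cross product -/
def crs (P Q : Fin 3 → Alg V) (c : Fin 3) : Alg V := P (c + 1) * Q (c + 2) - P (c + 2) * Q (c + 1)

/-- the scalar product -/
def dot (P Q : Fin 3 → Alg V) : Alg V := ∑ c, P c * Q c

end general

/-- the cut-off kernel: `1` for `|x - z| ≤ (m - 2) r`, `0` for `|x - z| > (m + 2) r` -/
def psi {L : ℕ} [NeZero L] (m r : ℝ) (x z : Tor L) : ℝ :=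
  ∑ a, ∑ a', if tnorm (a - a') ≤ m * r then th r a x * th r a' z else 0

/-- A level of the renormalisation: scores `J`, vector fields `b`, radius of locality `ρ`, minimal
scale `l`, bound `B` for the second moments. -/
structure Good {L : ℕ} [NeZero L] {ι : Type} [Fintype ι] {G : Gr (Tor L) ι} {β : ℝ}
    {Λ : Finset (Tor L)} (W : WFun G β Λ) (J : Tor L → Fin 3 → Alg (Tor L))
    (b : Tor L → Fin 3 → Derivation ℝ (Alg (Tor L)) (Alg (Tor L))) (ρ l B : ℝ) : Prop where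
  sumJ : ∀ g, ∑ y, J y g = 0
  sumb : ∀ g, ∑ y, b y g = R (fun _ => 1) g
  cov : ∀ y, CovV (J y)
  sup : ∀ y g, Sup {x | tnorm (x - y) ≤ ρ} (J y g)
  loc : ∀ (y : Tor L) (g : Fin 3) (F : Alg (Tor L)) (A : Set (Tor L)), Loc A F →
    (∀ x ∈ A, ρ < tnorm (x - y)) → b y g F = 0
  ibp : ∀ y : Tor L, (∀ x, tnorm (x - y) ≤ ρ → x ∈ Λ) → ∀ (g : Fin 3) (F : Alg (Tor L)),
    W.E (b y g F) = W.E (J y g * F)
  mom : ∀ r : ℝ, l ≤ r → ∀ a : Tor L, (∀ x, tnorm (x - a) ≤ 2 * r → x ∈ Λ) →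
    ∀ (s : ℝ) (f : Tor L → ℝ), 0 ≤ s → (∀ x, f x ≠ 0 → tnorm (x - a) ≤ r) →
      (∀ x y, |f x - f y| ≤ s / r * tnorm (x - y)) →
      ∀ H : Alg (Tor L), Loc {x | 2 * r < tnorm (x - a)} H → NN H →
        ∑ g, W.E (JS J f g ^ 2 * H) ≤ s ^ 2 * B * W.E H

/-! ## The statements to be proved -/

/-- level zero -/
def S_zero : Prop := ∃ C : ℝ, 0 < C ∧ ∀ (L : ℕ) [NeZero L] {ι : Type} [Fintype ι]
  (G : Gr (Tor L) ι) (β ρ K : ℝ), Nice G β ρ K → 1 ≤ ρ → 0 ≤ K → ∀ (Λ : Finset (Tor L))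
  (W : WFun G β Λ), Good W (fun y g => S1 G β y g) (fun y g => D y g) ρ ρ (C * K)

/-- the scores and the vector fields of the next level, without the moment bound -/
def S_alg : Prop := ∀ (L : ℕ) [NeZero L] {ι : Type} [Fintype ι] (G : Gr (Tor L) ι) (β : ℝ)
  (Λ : Finset (Tor L)) (W : WFun G β Λ) (J : Tor L → Fin 3 → Alg (Tor L))
  (b : Tor L → Fin 3 → Derivation ℝ (Alg (Tor L)) (Alg (Tor L))) (ρ l B r t : ℝ),
  Good W J b ρ l B → 0 ≤ ρ → 2 * ρ ≤ r → 1 ≤ r →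
  (∀ g, ∑ y, nJ J t (psi 4 r) y g = 0) ∧
  (∀ g, ∑ y, nb J b t (psi 4 r) y g = R (fun _ => 1) g) ∧
  (∀ y, CovV (nJ J t (psi 4 r) y)) ∧
  (∀ y g, Sup {x | tnorm (x - y) ≤ 7 * r} (nJ J t (psi 4 r) y g)) ∧
  (∀ (y : Tor L) (g : Fin 3) (F : Alg (Tor L)) (A : Set (Tor L)), Loc A F →
    (∀ x ∈ A, 7 * r < tnorm (x - y)) → nb J b t (psi 4 r) y g F = 0) ∧
  (∀ y : Tor L, (∀ x, tnorm (x - y) ≤ 7 * r → x ∈ Λ) → ∀ (g : Fin 3) (F : Alg (Tor L)),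
    W.E (nb J b t (psi 4 r) y g F) = W.E (nJ J t (psi 4 r) y g * F))

/-- orthogonality: `Y` is a family of vectors of range `q` -/
def S_orth : Prop := ∀ (L : ℕ) [NeZero L] {ι : Type} [Fintype ι] (G : Gr (Tor L) ι) (β : ℝ)
  (Λ : Finset (Tor L)) (W : WFun G β Λ) (J : Tor L → Fin 3 → Alg (Tor L))
  (b : Tor L → Fin 3 → Derivation ℝ (Alg (Tor L)) (Alg (Tor L))) (ρ l B r m q R' : ℝ),
  Good W J b ρ l B → 0 ≤ ρ → 1 ≤ r → 0 ≤ q → 2 * (q + ρ) ≤ (m - 2) * r → ρ ≤ q →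
  ∀ (Y : Tor L → Fin 3 → Alg (Tor L)), (∀ y, CovV (Y y)) →
  (∀ y g, Sup {x | tnorm (x - y) ≤ q} (Y y g)) →
  ∀ (a : Tor L) (f : Tor L → ℝ), (∀ x, f x ≠ 0 → tnorm (x - a) ≤ R') →
  (∀ x, tnorm (x - a) ≤ R' + (m + 2) * r + ρ → x ∈ Λ) →
  ∀ H : Alg (Tor L), Loc {x | R' + (m + 2) * r + ρ < tnorm (x - a)} H →
  ∑ c, W.E (JS Y f c * QQ J (kap f (psi m r)) c * H) = 0

/-- the difference of the bilinear expressions with the cut-offs `4 r` and `16 r` -/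
def S_diff : Prop := ∃ C : ℝ, 0 < C ∧ ∀ (L : ℕ) [NeZero L] {ι : Type} [Fintype ι]
  (G : Gr (Tor L) ι) (β : ℝ) (Λ : Finset (Tor L)) (W : WFun G β Λ)
  (J : Tor L → Fin 3 → Alg (Tor L))
  (b : Tor L → Fin 3 → Derivation ℝ (Alg (Tor L)) (Alg (Tor L))) (ρ l B r : ℝ),
  Good W J b ρ l B → 0 ≤ ρ → 2 * ρ ≤ r → l ≤ r → 1 ≤ r → 0 ≤ B → 2 * r < L →
  ∀ (R' s : ℝ), 20 * r ≤ R' → 0 ≤ s → ∀ a : Tor L, (∀ x, tnorm (x - a) ≤ 2 * R' → x ∈ Λ) →
    ∀ f : Tor L → ℝ, (∀ x, f x ≠ 0 → tnorm (x - a) ≤ R') →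
      (∀ x y, |f x - f y| ≤ s / R' * tnorm (x - y)) →
      ∀ H : Alg (Tor L), Loc {x | 2 * R' < tnorm (x - a)} H → NN H →
        ∑ c, W.E ((QQ J (kap f (psi 16 r)) c - QQ J (kap f (psi 4 r)) c) ^ 2 * H) ≤
          s ^ 2 * (C * B ^ 2) * W.E H

/-- the second moments of the next level -/
def S_mom : Prop := ∃ C : ℝ, 0 < C ∧ ∀ (L : ℕ) [NeZero L] {ι : Type} [Fintype ι]
  (G : Gr (Tor L) ι) (β : ℝ) (Λ : Finset (Tor L)) (W : WFun G β Λ)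
  (J : Tor L → Fin 3 → Alg (Tor L))
  (b : Tor L → Fin 3 → Derivation ℝ (Alg (Tor L)) (Alg (Tor L))) (ρ l B r : ℝ),
  Good W J b ρ l B → 0 ≤ ρ → 2 * ρ ≤ r → l ≤ r → 1 ≤ r → 0 ≤ B → 2 * r < L →
  Good W (nJ J (1 / (1 + C * B)) (psi 4 r)) (nb J b (1 / (1 + C * B)) (psi 4 r)) (7 * r)
    (20 * r) (C * B ^ 2 / (1 + C * B))

/-- the main bound: as in the library, with `exp (C (1 + K))` in place of `exp (C (1 + K ^ 2))` -/
def S_main : Prop := ∀ ε : ℝ, 0 < ε → ∃ C : ℝ, 0 < C ∧ ∀ K : ℝ, 0 ≤ K →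
  ∀ R : ℝ, Real.exp (C * (1 + K)) ≤ R → ∀ (L : ℕ) [NeZero L], 2 * R < L →
    ∀ {ι : Type} [Fintype ι]
    (G : Gr (Tor L) ι) (β ρ : ℝ), Nice G β ρ K → 1 ≤ ρ → ρ ≤ √R → ∀ (p : Tor L)
    (W : WFun G β (ball p R)), ∃ U : Alg (Tor L),
    W.E (U ^ 2) ≤ ε ∧ W.E (X (p, 0)) = W.E (U * X (p, 1)) ∧
    ∀ σ σ' : Tor L × Fin 3 → ℝ,
      (∀ x, R / 8 ≤ tnorm (x - p) → ∀ g, σ (x, g) = σ' (x, g)) →
        eval σ U = eval σ' U

/-- decay of the influence of the boundary -/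
def S_fin : Prop := ∀ a : ℝ, 0 < a → ∃ C : ℝ, 1 ≤ C ∧ ∀ A : ℝ, 0 ≤ A → ∀ N : ℕ, 3 ≤ N →
    ∀ (L : ℕ) [NeZero L] (c : Tor L × Tor L → ℝ), ExpC A a c → ∀ (x y : Tor L),
      (∫ S : Conf N L, inner ℝ (S x : EuclideanSpace ℝ (Fin N)) (S y) * Real.exp (pS c S)
        ∂(prior N L)) / (∫ S : Conf N L, Real.exp (pS c S) ∂(prior N L)) ≤
        Real.exp 2 * Real.exp (-Real.exp (-(C * (1 + A))) * tnorm (x - y))

end Pool.Agent.H970.RG
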