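import Pool.Agent.H970.RG.Psi

/-! # Orthogonality -/

set_option autoImplicit false
set_option linter.unusedSectionVars false

noncomputable section

namespace Pool.Agent.H970.RG

open MvPolynomial Pool.Agent.H5R2.ON Pool.Agent.H717R2.ON3 Pool.Agent.H983R2.ONJ
open Pool.Agent.Y13.QM

section good

variable {L : ℕ} [NeZero L] {ι : Type} [Fintype ι] {G : Gr (Tor L) ι} {β : ℝ}
  {Λ : Finset (Tor L)} {W : WFun G β Λ} {J : Tor L → Fin 3 → Alg (Tor L)}
  {b : Tor L → Fin 3 → Derivation ℝ (Alg (Tor L)) (Alg (Tor L))} {ρ l B : ℝ}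

theorem triple_eq {V : Type} (P Q Y : Fin 3 → Alg V) (H : Alg V) :
    ∑ c, Y c * crs P Q c * H = ∑ a, P a * (crs Q Y a * H) := by
  have e1 : (0 : Fin 3) + 1 = 1 := rfl
  have e2 : (0 : Fin 3) + 2 = 2 := rfl
  have e3 : (1 : Fin 3) + 1 = 2 := rfl
  have e4 : (1 : Fin 3) + 2 = 0 := rfl
  have e5 : (2 : Fin 3) + 1 = 0 := rfl
  have e6 : (2 : Fin 3) + 2 = 1 := rfl
  unfold crs
  simp only [Fin.sum_univ_three, e1, e2, e3, e4, e5, e6]
  ring

theorem der_mul_zero {V : Type} (d : Derivation ℝ (Alg V) (Alg V)) {P Q : Alg V}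
    (hP : d P = 0) (hQ : d Q = 0) : d (P * Q) = 0 := by
  rw [Derivation.leibniz, hP, hQ, smul_zero, smul_zero, add_zero]

/-- the nested case -/
theorem orth_near (h : Good W J b ρ l B) {u : Tor L → ℝ} {A : Set (Tor L)}
    {P Y : Fin 3 → Alg (Tor L)} (hP : CovV P) (hY : CovV Y) (hPA : ∀ g, Loc A (P g))
    (hYA : ∀ g, Loc A (Y g)) (hu : ∀ y, u y ≠ 1 → ∀ x ∈ A, ρ < tnorm (x - y))
    {D : Set (Tor L)} {H : Alg (Tor L)} (hH : Loc D H)
    (huD : ∀ y, u y ≠ 0 → ∀ x ∈ D, ρ < tnorm (x - y))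
    (huΛ : ∀ y, u y ≠ 0 → ∀ x, tnorm (x - y) ≤ ρ → x ∈ Λ) :
    ∑ c, W.E (Y c * crs (JS J u) P c * H) = 0 := by
  rw [← map_sum, triple_eq, map_sum]
  refine Finset.sum_eq_zero fun g _ => ?_
  rw [← h.ibpS huΛ g, Derivation.leibniz]
  have hc : Loc A (crs P Y g) := by
    unfold crs
    rw [sub_eq_add_neg, ← neg_one_smul ℝ]
    exact Loc.add (Loc.mul (hPA _) (hYA _)) (Loc.smul (Loc.mul (hPA _) (hYA _)) _)
  rw [h.BS_kill hH huD g, h.BS_rigid hc hu g, div_vec (covV_crs hP hY) g]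
  simp only [smul_zero, add_zero, map_zero]

/-- the isolated case -/
theorem orth_far (h : Good W J b ρ l B) {z : Tor L} (hz : ∀ x, tnorm (x - z) ≤ ρ → x ∈ Λ)
    {P Y : Fin 3 → Alg (Tor L)} {A D : Set (Tor L)} (hP : ∀ g, Loc A (P g))
    (hY : ∀ g, Loc A (Y g)) (hA : ∀ x ∈ A, ρ < tnorm (x - z)) {H : Alg (Tor L)}
    (hH : Loc D H) (hD : ∀ x ∈ D, ρ < tnorm (x - z)) :
    ∑ c, W.E (Y c * crs P (J z) c * H) = 0 := by
  refine Finset.sum_eq_zero fun c _ => ?_
  have key : ∀ i j k, W.E (J z i * (P j * Y k * H)) = 0 := by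
    intro i j k
    rw [← h.ibp z hz i]
    rw [der_mul_zero (b z i) (der_mul_zero (b z i) (h.loc z i _ A (hP j) hA)
      (h.loc z i _ A (hY k) hA)) (h.loc z i _ D hH hD), map_zero]
  have e : Y c * crs P (J z) c * H =
      J z (c + 2) * (P (c + 1) * Y c * H) - J z (c + 1) * (P (c + 2) * Y c * H) := by
    unfold crs
    ring
  rw [e, map_sub, key, key, sub_zero]

end good

theorem orth : S_orth := by
  intro L _ ι _ G β Λ W J b ρ l B r m q R' h hρ hr hq hm hρq Y hY hYs a f hf hΛ H hH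
  have hnest : ∀ c, QQ J (kap f (psi m r)) c =
      ∑ z, f z • crs (JS J (fun x => psi m r x z)) (J z) c :=
    fun c => QQ_nest J f (psi_symm m r) c
  have h1 : ∀ c, W.E (JS Y f c * QQ J (kap f (psi m r)) c * H) =
      ∑ v, ∑ z, (f v * f z) *
        W.E (Y v c * crs (JS J (fun x => psi m r x z)) (J z) c * H) := by
    intro c
    have hJS : JS Y f c = ∑ v, f v • Y v c := rfl
    rw [hnest c, hJS, Finset.sum_mul, Finset.sum_mul, map_sum]
    refine Finset.sum_congr rfl fun v _ => ?_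
    rw [Finset.mul_sum, Finset.sum_mul, map_sum]
    refine Finset.sum_congr rfl fun z _ => ?_
    rw [smul_mul_assoc, mul_smul_comm, smul_smul, smul_mul_assoc, map_smul, smul_eq_mul]
  simp only [h1]
  rw [Finset.sum_comm]
  refine Finset.sum_eq_zero fun v _ => ?_
  rw [Finset.sum_comm]
  refine Finset.sum_eq_zero fun z _ => ?_
  rw [← Finset.mul_sum]
  by_cases hz : f z = 0
  · rw [hz, mul_zero, zero_mul]
  have hza := hf z hz
  refine mul_eq_zero_of_right _ ?_
  set u : Tor L → ℝ := fun x => psi m r x z with hu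
  have hu0 : ∀ y, u y ≠ 0 → tnorm (y - z) ≤ (m + 2) * r := fun y hy => psi_supp hr hy
  have hu1 : ∀ y, u y ≠ 1 → (m - 2) * r < tnorm (y - z) := by
    intro y hy
    by_contra hc
    push Not at hc
    exact hy (psi_one hr hc)
  have huΛ : ∀ y, u y ≠ 0 → ∀ x, tnorm (x - y) ≤ ρ → x ∈ Λ := by
    intro y hy x hx
    refine hΛ x ?_
    have h2 := hu0 y hy
    have h3 := tri3 x y a
    have h4 := tri3 y z a
    linarith
  have huD : ∀ y, u y ≠ 0 → ∀ x ∈ {x | R' + (m + 2) * r + ρ < tnorm (x - a)},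
      ρ < tnorm (x - y) := by
    intro y hy x hx
    simp only [Set.mem_ofPred_eq] at hx
    have h2 := hu0 y hy
    have h3 := tri3 x y a
    have h4 := tri3 y z a
    linarith
  have hmr : 0 ≤ (m - 2) * r := by linarith
  by_cases hvz : tnorm (v - z) + q + ρ ≤ (m - 2) * r
  · refine orth_near h (A := {x | tnorm (x - z) ≤ ρ ∨ tnorm (x - v) ≤ q}) (h.cov z) (hY v)
      (fun g => ?_) (fun g => ?_) (fun y hy x hx => ?_) hH huD huΛ
    · exact ((h.sup z g).mono fun x hx => Or.inl hx).loc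
    · exact ((hYs v g).mono fun x hx => Or.inr hx).loc
    · have h2 := hu1 y hy
      simp only [Set.mem_ofPred_eq] at hx
      rcases hx with hx | hx
      · have h3 := tri3 y x z
        rw [tnorm_sub_comm y x] at h3
        linarith
      · have h3 := tri3 y x z
        have h4 := tri3 x v z
        rw [tnorm_sub_comm y x] at h3
        linarith
  · push Not at hvz
    have hzv : q + ρ < tnorm (v - z) := by linarith
    refine orth_far h (A := {x | ρ < tnorm (x - z)}) (fun x hx => hΛ x ?_) (fun g => ?_)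
      (fun g => ?_) (fun x hx => hx) hH (fun x hx => ?_)
    · have h3 := tri3 x z a
      have h5 : 0 ≤ (m + 2) * r := by nlinarith
      linarith
    · rw [h.JS_sub_one]
      refine (h.supS (fun y hy x hx => ?_) g).loc
      have h2 := hu1 y (fun hc => hy (by rw [hc, sub_self]))
      simp only [Set.mem_ofPred_eq]
      have h3 := tri3 y x z
      rw [tnorm_sub_comm y x] at h3
      linarith
    · refine ((hYs v g).mono fun x hx => ?_).loc
      simp only [Set.mem_ofPred_eq] at hx ⊢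
      have h3 := tri3 v x z
      rw [tnorm_sub_comm v x] at h3
      linarith
    · simp only [Set.mem_ofPred_eq] at hx
      have h3 := tri3 x z a
      have h5 : 0 ≤ (m + 2) * r := by nlinarith
      linarith

end Pool.Agent.H970.RG
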