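import Pool.Agent.H970.RG.Alg
import Pool.Agent.H970.RG.Orth

/-! # The second moments of the next level -/

set_option autoImplicit false
set_option linter.unusedSectionVars false

noncomputable section

namespace Pool.Agent.H970.RG

open MvPolynomial Pool.Agent.H5R2.ON Pool.Agent.H717R2.ON3 Pool.Agent.H983R2.ONJ
open Pool.Agent.Y13.QM

theorem NN.sq_mul {V : Type} {H : Alg V} (hH : NN H) (F : Alg V) : NN (F ^ 2 * H) := by
  intro σ hσ
  rw [map_mul, map_pow]
  exact mul_nonneg (sq_nonneg _) (hH σ hσ)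

theorem mom (hd : S_diff) : S_mom := by
  obtain ⟨C, hC, hdiff⟩ := hd
  refine ⟨C, hC, ?_⟩
  intro L _ ι _ G β Λ W J b ρ l B r h hρ hρr hlr hr hB hL
  obtain ⟨a1, a2, a3, a4, a5, a6⟩ := alg L G β Λ W J b ρ l B r (1 / (1 + C * B)) h hρ hρr hr
  refine ⟨a1, a2, a3, a4, a5, a6, ?_⟩
  intro R' hR' a hΛ s f hs hf hlip H hH hN
  have hCB : 0 ≤ C * B := mul_nonneg hC.le hB
  obtain ⟨t, ht⟩ : ∃ t : ℝ, t = 1 / (1 + C * B) := ⟨_, rfl⟩
  rw [← ht]
  have hEH : 0 ≤ W.E H := W.pos H hN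
  have hE2 : ∀ F : Alg (Tor L), 0 ≤ W.E (F ^ 2 * H) := fun F => W.pos _ (NN.sq_mul hN F)
  -- the three sums
  have h1 : ∑ g, W.E (JS J f g ^ 2 * H) ≤ s ^ 2 * B * W.E H :=
    h.mom R' (by linarith) a hΛ s f hs hf hlip H hH hN
  have h2 : ∑ c, W.E (JS J f c * QQ J (kap f (psi 4 r)) c * H) = 0 := by
    refine orth L G β Λ W J b ρ l B r 4 ρ R' h hρ hr hρ (by linarith) le_rfl J h.cov h.sup a f hf
      (fun x hx => hΛ x (by linarith)) H (Loc.mono hH fun x hx => ?_)
    simp only [Set.mem_ofPred_eq] at hx ⊢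
    linarith
  have h3 : ∑ c, W.E (QQ J (kap f (psi 4 r)) c * QQ J (kap f (psi 16 r)) c * H) = 0 := by
    have hY : ∀ c, QQ J (kap f (psi 4 r)) c =
        JS (fun v => crs (JS J (fun x => psi 4 r x v)) (J v)) f c :=
      fun c => QQ_nest J f (psi_symm 4 r) c
    simp only [hY]
    refine orth L G β Λ W J b ρ l B r 16 (6 * r + ρ) R' h hρ hr (by linarith) (by linarith)
      (by linarith) (fun v => crs (JS J (fun x => psi 4 r x v)) (J v))
      (fun v => covV_crs (covV_JS h.cov _) (h.cov v)) (fun v g => ?_) a f hf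
      (fun x hx => hΛ x (by linarith)) H (Loc.mono hH fun x hx => ?_)
    · have e1 : ∀ g, Sup {x | tnorm (x - v) ≤ 6 * r + ρ} (JS J (fun x => psi 4 r x v) g) := by
        intro g
        refine h.supS (fun y hy x hx => ?_) g
        have h4 := psi_supp hr hy
        have h5 := tri3 x y v
        simp only [Set.mem_ofPred_eq]
        linarith
      have e2 : ∀ g, Sup {x | tnorm (x - v) ≤ 6 * r + ρ} (J v g) := by
        intro g
        refine (h.sup v g).mono fun x hx => ?_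
        simp only [Set.mem_ofPred_eq] at hx ⊢
        linarith
      exact ((e1 _).mul (e2 _)).sub ((e1 _).mul (e2 _))
    · simp only [Set.mem_ofPred_eq] at hx ⊢
      linarith
  have h4 : ∑ c, W.E ((QQ J (kap f (psi 16 r)) c - QQ J (kap f (psi 4 r)) c) ^ 2 * H) ≤
      s ^ 2 * (C * B ^ 2) * W.E H :=
    hdiff L G β Λ W J b ρ l B r h hρ hρr hlr hr hB hL R' s hR' hs a hΛ f hf hlip H hH hN
  have h5 : ∑ c, W.E (QQ J (kap f (psi 4 r)) c ^ 2 * H) ≤ s ^ 2 * (C * B ^ 2) * W.E H := by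
    refine le_trans ?_ h4
    have e : ∀ c, W.E ((QQ J (kap f (psi 16 r)) c - QQ J (kap f (psi 4 r)) c) ^ 2 * H) =
        W.E (QQ J (kap f (psi 16 r)) c ^ 2 * H) + W.E (QQ J (kap f (psi 4 r)) c ^ 2 * H) -
          2 * W.E (QQ J (kap f (psi 4 r)) c * QQ J (kap f (psi 16 r)) c * H) := by
      intro c
      have e' : (QQ J (kap f (psi 16 r)) c - QQ J (kap f (psi 4 r)) c) ^ 2 * H =
          QQ J (kap f (psi 16 r)) c ^ 2 * H + QQ J (kap f (psi 4 r)) c ^ 2 * H -
            (2 : ℝ) • (QQ J (kap f (psi 4 r)) c * QQ J (kap f (psi 16 r)) c * H) := by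
        rw [two_smul]
        ring
      rw [e', map_sub, map_add, map_smul, smul_eq_mul]
    simp only [e]
    rw [Finset.sum_sub_distrib, Finset.sum_add_distrib, ← Finset.mul_sum, h3]
    have := Finset.sum_nonneg fun c (_ : c ∈ (Finset.univ : Finset (Fin 3))) =>
      hE2 (QQ J (kap f (psi 16 r)) c)
    linarith
  -- the expansion
  have h6 : ∑ g, W.E (JS (nJ J t (psi 4 r)) f g ^ 2 * H) =
      (1 - t) ^ 2 * ∑ g, W.E (JS J f g ^ 2 * H) -
        2 * t * (1 - t) * ∑ c, W.E (JS J f c * QQ J (kap f (psi 4 r)) c * H) +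
        t ^ 2 * ∑ c, W.E (QQ J (kap f (psi 4 r)) c ^ 2 * H) := by
    rw [Finset.mul_sum, Finset.mul_sum, Finset.mul_sum, ← Finset.sum_sub_distrib,
      ← Finset.sum_add_distrib]
    refine Finset.sum_congr rfl fun g _ => ?_
    rw [JS_nJ]
    have e : ((1 - t) • JS J f g - t • QQ J (kap f (psi 4 r)) g) ^ 2 * H =
        ((1 - t) ^ 2) • (JS J f g ^ 2 * H) -
          (2 * t * (1 - t)) • (JS J f g * QQ J (kap f (psi 4 r)) g * H) +
          (t ^ 2) • (QQ J (kap f (psi 4 r)) g ^ 2 * H) := by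
      simp only [smul_eq_C_mul, map_sub, map_mul, map_pow, map_one]
      have : (MvPolynomial.C (2 : ℝ) : Alg (Tor L)) = 2 := by
        rw [map_ofNat]
      rw [this]
      ring
    rw [e, map_add, map_sub, map_smul, map_smul, map_smul]
    simp only [smul_eq_mul]
  rw [h6, h2, mul_zero, sub_zero]
  have ht0 : 0 ≤ t := by rw [ht]; positivity
  have hs2 : 0 ≤ s ^ 2 := sq_nonneg s
  calc (1 - t) ^ 2 * ∑ g, W.E (JS J f g ^ 2 * H) +
        t ^ 2 * ∑ c, W.E (QQ J (kap f (psi 4 r)) c ^ 2 * H)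
      ≤ (1 - t) ^ 2 * (s ^ 2 * B * W.E H) + t ^ 2 * (s ^ 2 * (C * B ^ 2) * W.E H) := by
        gcongr
    _ = s ^ 2 * (C * B ^ 2 / (1 + C * B)) * W.E H := by
        rw [ht]
        field_simp
        ring

end Pool.Agent.H970.RG
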