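import Pool.Agent.H970.RG.Basic

/-! # The cut-off kernel and the nested form of the bilinear expressions -/

set_option autoImplicit false
set_option linter.unusedSectionVars false

noncomputable section

namespace Pool.Agent.H970.RG

open MvPolynomial Pool.Agent.H5R2.ON Pool.Agent.H717R2.ON3 Pool.Agent.H983R2.ONJ
open Pool.Agent.Y13.QM

theorem tri3 {L : ℕ} [NeZero L] (x y z : Tor L) :
    tnorm (x - z) ≤ tnorm (x - y) + tnorm (y - z) := by
  have := tnorm_add_le (x - y) (y - z)
  rwa [sub_add_sub_cancel] at this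

theorem psi_symm {L : ℕ} [NeZero L] (m r : ℝ) (x z : Tor L) : psi m r x z = psi m r z x := by
  unfold psi
  rw [Finset.sum_comm]
  refine Finset.sum_congr rfl fun a _ => Finset.sum_congr rfl fun a' _ => ?_
  rw [tnorm_sub_comm a' a, mul_comm (th r a' x)]

theorem psi_supp {L : ℕ} [NeZero L] {m r : ℝ} (hr : 1 ≤ r) {x z : Tor L} (h : psi m r x z ≠ 0) :
    tnorm (x - z) ≤ (m + 2) * r := by
  unfold psi at h
  obtain ⟨a, -, h1⟩ := Finset.exists_ne_zero_of_sum_ne_zero h
  obtain ⟨a', -, h2⟩ := Finset.exists_ne_zero_of_sum_ne_zero h1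
  by_cases h3 : tnorm (a - a') ≤ m * r
  · rw [if_pos h3] at h2
    have h4 := th_supp hr (left_ne_zero_of_mul h2)
    have h5 := th_supp hr (right_ne_zero_of_mul h2)
    have h6 := tri3 x a z
    have h7 := tri3 a a' z
    rw [tnorm_sub_comm a' z] at h7
    linarith
  · rw [if_neg h3] at h2
    exact absurd rfl h2

theorem psi_one {L : ℕ} [NeZero L] {m r : ℝ} (hr : 1 ≤ r) {x z : Tor L}
    (h : tnorm (x - z) ≤ (m - 2) * r) : psi m r x z = 1 := by
  unfold psi
  have h1 : ∀ a a' : Tor L, (if tnorm (a - a') ≤ m * r then th r a x * th r a' z else 0) =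
      th r a x * th r a' z := by
    intro a a'
    by_cases h2 : th r a x * th r a' z = 0
    · rw [h2, ite_self]
    · have h4 := th_supp hr (left_ne_zero_of_mul h2)
      have h5 := th_supp hr (right_ne_zero_of_mul h2)
      have h6 := tri3 a x a'
      have h7 := tri3 x z a'
      rw [tnorm_sub_comm a x] at h6
      rw [if_pos (by linarith)]
  simp only [h1]
  simp only [← Finset.mul_sum]
  rw [← Finset.sum_mul, sum_th r hr x, sum_th r hr z, one_mul]

section general

variable {V : Type} [Fintype V] [DecidableEq V]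

theorem QQ_nest (J : V → Fin 3 → Alg V) (f : V → ℝ) {ψ : V → V → ℝ}
    (hψ : ∀ x z, ψ x z = ψ z x) (c : Fin 3) :
    QQ J (kap f ψ) c = ∑ z, f z • crs (JS J (fun x => ψ x z)) (J z) c := by
  have h1 : ∑ x, ∑ z, (f z * ψ x z) • (J x (c + 1) * J z (c + 2)) =
      ∑ z, f z • (JS J (fun x => ψ x z) (c + 1) * J z (c + 2)) := by
    rw [Finset.sum_comm]
    refine Finset.sum_congr rfl fun z _ => ?_
    unfold JS
    rw [Finset.sum_mul, Finset.smul_sum]
    refine Finset.sum_congr rfl fun x _ => ?_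
    rw [smul_mul_assoc, smul_smul]
  have h2 : ∑ x, ∑ z, (f x * ψ x z) • (J x (c + 1) * J z (c + 2)) =
      ∑ z, f z • (JS J (fun x => ψ x z) (c + 2) * J z (c + 1)) := by
    refine Finset.sum_congr rfl fun x _ => ?_
    unfold JS
    rw [Finset.sum_mul, Finset.smul_sum]
    refine Finset.sum_congr rfl fun z _ => ?_
    rw [smul_mul_assoc, smul_smul, hψ x z, mul_comm (J x (c + 1))]
  unfold QQ kap
  have h3 : ∀ x z, ((f z - f x) * ψ x z) • (J x (c + 1) * J z (c + 2)) =
      (f z * ψ x z) • (J x (c + 1) * J z (c + 2)) -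
        (f x * ψ x z) • (J x (c + 1) * J z (c + 2)) := by
    intro x z
    rw [← sub_smul]
    congr 1
    ring
  simp only [h3, Finset.sum_sub_distrib]
  rw [h1, h2, ← Finset.sum_sub_distrib]
  refine Finset.sum_congr rfl fun z _ => ?_
  unfold crs
  rw [smul_sub]

end general

section good

variable {L : ℕ} [NeZero L] {ι : Type} [Fintype ι] {G : Gr (Tor L) ι} {β : ℝ}
  {Λ : Finset (Tor L)} {W : WFun G β Λ} {J : Tor L → Fin 3 → Alg (Tor L)}
  {b : Tor L → Fin 3 → Derivation ℝ (Alg (Tor L)) (Alg (Tor L))} {ρ l B : ℝ}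

/-- integration by parts for smeared fields -/
theorem Good.ibpS (h : Good W J b ρ l B) {f : Tor L → ℝ}
    (hf : ∀ y, f y ≠ 0 → ∀ x, tnorm (x - y) ≤ ρ → x ∈ Λ) (g : Fin 3) (F : Alg (Tor L)) :
    W.E (BS b f g F) = W.E (JS J f g * F) := by
  rw [BS_apply]
  unfold JS
  rw [map_sum, Finset.sum_mul, map_sum]
  refine Finset.sum_congr rfl fun y _ => ?_
  rw [map_smul, smul_mul_assoc, map_smul]
  by_cases hy : f y = 0
  · rw [hy, zero_smul, zero_smul]
  · rw [h.ibp y (hf y hy) g F]

/-- smeared fields are rigid rotations where the weight is one -/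
theorem Good.BS_rigid (h : Good W J b ρ l B) {f : Tor L → ℝ} {F : Alg (Tor L)}
    {A : Set (Tor L)} (hF : Loc A F) (hf : ∀ y, f y ≠ 1 → ∀ x ∈ A, ρ < tnorm (x - y))
    (g : Fin 3) : BS b f g F = R (fun _ => 1) g F := by
  rw [BS_apply, ← h.sumb g, der_sum]
  refine Finset.sum_congr rfl fun y _ => ?_
  by_cases hy : f y = 1
  · rw [hy, one_smul]
  · rw [h.loc y g F A hF (hf y hy), smul_zero]

theorem Good.BS_kill (h : Good W J b ρ l B) {f : Tor L → ℝ} {F : Alg (Tor L)}
    {A : Set (Tor L)} (hF : Loc A F) (hf : ∀ y, f y ≠ 0 → ∀ x ∈ A, ρ < tnorm (x - y))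
    (g : Fin 3) : BS b f g F = 0 := by
  rw [BS_apply]
  refine Finset.sum_eq_zero fun y _ => ?_
  by_cases hy : f y = 0
  · rw [hy, zero_smul]
  · rw [h.loc y g F A hF (hf y hy), smul_zero]

/-- the smeared score only depends on the places where the weight is not one -/
theorem Good.JS_sub_one (h : Good W J b ρ l B) (f : Tor L → ℝ) (g : Fin 3) :
    JS J f g = JS J (fun x => f x - 1) g := by
  unfold JS
  simp only [sub_smul, one_smul, Finset.sum_sub_distrib]
  rw [h.sumJ g, sub_zero]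

theorem Good.supS (h : Good W J b ρ l B) {f : Tor L → ℝ} {A : Set (Tor L)}
    (hf : ∀ y, f y ≠ 0 → ∀ x, tnorm (x - y) ≤ ρ → x ∈ A) (g : Fin 3) : Sup A (JS J f g) := by
  unfold JS
  refine Sup.sum _ _ fun y _ => ?_
  by_cases hy : f y = 0
  · rw [hy, zero_smul]
    exact Sup.zero
  · exact ((h.sup y g).mono fun x hx => hf y hy x hx).smul _

end good

end Pool.Agent.H970.RG
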